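import Mathlib

/-!
# Groups covered by the conjugates of a finite simple subgroup

Let `G` be a group with a proper finite simple subgroup `H` such that `G` is the union of the conjugates of `H`. We prove that
`G` is an infinite simple group of finite exponent (dividing the exponent of `H`), without proper subgroups of finite index; so
all homomorphisms from `G` to residually finite groups are trivial.

Proof. A normal subgroup `N` is the union of the conjugates of `H ∩ N`, and `H ∩ N` is `1` or `H`. A finite group is not the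
union of the conjugates of a proper subgroup (Jordan), which gives the other statements.
-/

set_option autoImplicit false

namespace Pool.Agent.Results.MP_ca9d64_al.SimpleNoFiniteIndex

open Subgroup

variable {G : Type*} [Group G]

/-- Jordan: a finite group is not the union of the conjugates of a proper subgroup. -/
theorem jordan [Finite G] (H : Subgroup G) (h : ∀ g : G, ∃ x : G, x⁻¹ * g * x ∈ H) : H = ⊤ := by
  classical
  have := Fintype.ofFinite G
  have hsurj : Function.Surjective (fun p : (G ⧸ H) × {h : H // h ≠ 1} =>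
      (⟨p.1.out * (p.2.1 : G) * p.1.out⁻¹, by
        intro h1
        apply p.2.2
        apply Subtype.ext
        have : (p.2.1 : G) = p.1.out⁻¹ * (p.1.out * (p.2.1 : G) * p.1.out⁻¹) * p.1.out := by group
        rw [this, h1]
        simp⟩ : {g : G // g ≠ 1})) := by
    rintro ⟨g, hg⟩
    obtain ⟨x, hx⟩ := h g
    have hk : ((x : G ⧸ H).out)⁻¹ * x ∈ H := by
      rw [← QuotientGroup.eq, QuotientGroup.out_eq']
    have hmem : ((x : G ⧸ H).out)⁻¹ * g * (x : G ⧸ H).out ∈ H := by
      have e : ((x : G ⧸ H).out)⁻¹ * g * (x : G ⧸ H).out =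
          (((x : G ⧸ H).out)⁻¹ * x) * (x⁻¹ * g * x) * (((x : G ⧸ H).out)⁻¹ * x)⁻¹ := by group
      rw [e]
      exact mul_mem (mul_mem hk hx) (inv_mem hk)
    refine ⟨((x : G ⧸ H), ⟨⟨_, hmem⟩, ?_⟩), ?_⟩
    · intro h1
      apply hg
      have h2 : ((x : G ⧸ H).out)⁻¹ * g * (x : G ⧸ H).out = 1 := congrArg Subtype.val h1
      have e : g = (x : G ⧸ H).out * (((x : G ⧸ H).out)⁻¹ * g * (x : G ⧸ H).out) * ((x : G ⧸ H).out)⁻¹ := by
        group
      rw [e, h2]
      simp
    · apply Subtype.ext
      show (x : G ⧸ H).out * (((x : G ⧸ H).out)⁻¹ * g * (x : G ⧸ H).out) * ((x : G ⧸ H).out)⁻¹ = g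
      group
  have hcard := Nat.card_le_card_of_surjective _ hsurj
  rw [Nat.card_prod] at hcard
  have h1 : Nat.card {h : H // h ≠ 1} = Nat.card H - 1 := by
    have := Set.ncard_compl ({1} : Set H)
    rw [Set.ncard_singleton] at this
    exact this
  have h2 : Nat.card {g : G // g ≠ 1} = Nat.card G - 1 := by
    have := Set.ncard_compl ({1} : Set G)
    rw [Set.ncard_singleton] at this
    exact this
  have h3 : Nat.card (G ⧸ H) * Nat.card H = Nat.card G := by
    have := H.index_mul_card
    rwa [Subgroup.index] at this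
  rw [h1, h2, ← h3] at hcard
  have h4 : 0 < Nat.card H := Nat.card_pos
  have h5 : 0 < Nat.card (G ⧸ H) := Nat.card_pos
  have h6 : Nat.card (G ⧸ H) = 1 := by
    obtain ⟨k, hk⟩ : ∃ k, Nat.card H = k + 1 := ⟨Nat.card H - 1, by omega⟩
    rw [hk, Nat.add_sub_cancel, Nat.mul_add, Nat.mul_one] at hcard
    omega
  rw [← Subgroup.index_eq_one]
  exact h6

/-- A normal subgroup is trivial or everything. -/
lemma normal_cases (H : Subgroup G) (hs : IsSimpleGroup H) (h : ∀ g : G, ∃ x : G, x⁻¹ * g * x ∈ H)
    (N : Subgroup G) (hN : N.Normal) : N = ⊥ ∨ N = ⊤ := by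
  have hn : (N.subgroupOf H).Normal := inferInstance
  rcases hs.eq_bot_or_eq_top_of_normal _ hn with h1 | h1
  · left
    rw [eq_bot_iff]
    intro g hg
    obtain ⟨x, hx⟩ := h g
    have h2 : x⁻¹ * g * x ∈ N := by
      have := hN.conj_mem g hg x⁻¹
      rwa [inv_inv] at this
    have h3 : (⟨x⁻¹ * g * x, hx⟩ : H) ∈ N.subgroupOf H := by
      rw [mem_subgroupOf]
      exact h2
    rw [h1, mem_bot] at h3
    have h4 : x⁻¹ * g * x = 1 := congrArg Subtype.val h3
    rw [mem_bot]
    have e : g = x * (x⁻¹ * g * x) * x⁻¹ := by group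
    rw [e, h4]
    simp
  · right
    rw [eq_top_iff]
    intro g _
    obtain ⟨x, hx⟩ := h g
    rw [subgroupOf_eq_top] at h1
    have h2 := hN.conj_mem _ (h1 hx) x
    have e : x * (x⁻¹ * g * x) * x⁻¹ = g := by group
    rwa [e] at h2

/-- **Groups covered by the conjugates of a finite simple subgroup.** Such a group `G ≠ H` is infinite, simple, of exponent
dividing that of `H`, without proper subgroups of finite index, and all homomorphisms to residually finite groups are
trivial. -/
theorem result (G : Type) [Group G] (H : Subgroup G) (hH : H ≠ ⊤) (hfin : Finite H) (hs : IsSimpleGroup H)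
    (h : ∀ g : G, ∃ x : G, x⁻¹ * g * x ∈ H) :
    Infinite G ∧ IsSimpleGroup G ∧ (∀ g : G, g ^ Monoid.exponent H = 1) ∧
      (∀ K : Subgroup G, K.index ≠ 0 → K = ⊤) ∧
      ∀ (Q : Type) [Group Q], (∀ q : Q, q ≠ 1 → ∃ K : Subgroup Q, K.index ≠ 0 ∧ q ∉ K) →
        ∀ f : G →* Q, ∀ g : G, f g = 1 := by
  have hinf : Infinite G := by
    rw [← not_finite_iff_infinite]
    intro hf
    exact hH (jordan H h)
  have hnt : Nontrivial G := inferInstance
  have hsim : IsSimpleGroup G := ⟨fun N hN => normal_cases H hs h N hN⟩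
  have hidx : ∀ K : Subgroup G, K.index ≠ 0 → K = ⊤ := by
    intro K hK
    have hK' : K.FiniteIndex := ⟨hK⟩
    have hc : K.normalCore.FiniteIndex := inferInstance
    rcases normal_cases H hs h K.normalCore inferInstance with h1 | h1
    · exfalso
      have h2 := hc.index_ne_zero
      rw [h1, Subgroup.index_bot] at h2
      exact h2 Nat.card_eq_zero_of_infinite
    · rw [eq_top_iff, ← h1]
      exact K.normalCore_le
  refine ⟨hinf, hsim, ?_, hidx, ?_⟩
  · intro g
    obtain ⟨x, hx⟩ := h g
    have h1 : (⟨x⁻¹ * g * x, hx⟩ : H) ^ Monoid.exponent H = 1 := Monoid.pow_exponent_eq_one _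
    have h2 : (x⁻¹ * g * x) ^ Monoid.exponent H = 1 := congrArg Subtype.val h1
    have e : g ^ Monoid.exponent H = x * (x⁻¹ * g * x) ^ Monoid.exponent H * x⁻¹ := by
      have := conj_pow (a := x⁻¹) (b := g) (i := Monoid.exponent H)
      rw [inv_inv] at this
      rw [this]
      group
    rw [e, h2]
    simp
  · intro Q _ hQ f g
    by_contra hg
    obtain ⟨K, hK, hgK⟩ := hQ (f g) hg
    have h1 : (K.comap f).index ≠ 0 := by
      rw [Subgroup.index_comap]
      intro h0
      have h5 := Subgroup.relIndex_eq_zero_of_le_right (le_top : f.range ≤ ⊤) h0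
      rw [Subgroup.relIndex_top_right] at h5
      exact hK h5
    have h2 := hidx _ h1
    apply hgK
    have h3 : g ∈ K.comap f := by rw [h2]; exact mem_top g
    exact h3

end Pool.Agent.Results.MP_ca9d64_al.SimpleNoFiniteIndex
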